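import Pool.Agent.Run7.h349.GP.Gfm
import Pool.Agent.N782.GN.All2

/-!
# Project GP (helper757), piece GFM, with the theorems of the library inserted
-/

set_option autoImplicit false

namespace Run7.h349.GP

open Pool.Agent.N782.GN Run7.h757.GP

/-- **GFM** -/
theorem gfm (hii : S_GII) : S_GFM :=
  gfm_of c_mub c_dvb c_vau hii c_ti c_til c_mt1 (Pool.Agent.N521.GN.mt2 c_mub c_mt1) c_lk

end Run7.h349.GP
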