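import Pool.Agent.Run7.h349.GP.GfmA

/-!
# Project GP (helper757), piece GFM: the first moment

Adapted from `Pool/Agent/N782/GN/MainD.lean` (helper782).
-/

set_option autoImplicit false

namespace Run7.h349.GP

open Finset Filter Topology
open Pool.Agent.H304R3.HK (UH bb LamK)
open Pool.Agent.N782.GN Run7.h757.GP

theorem em_bd (h1 : S_MT1) (h2 : S_MT2) (ε : ℝ) (A : ℕ) (hε : 0 < ε) :
    ∃ C : ℝ, 0 < C ∧ ∀ (M L : ℝ), Pq ε M L → 3 ≤ M ^ (3 * (ε / 8)) →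
      ∑ l ∈ Icc 1 ⌊L⌋, |Em l M (Yp ε M L) (Wq ε M L) - 2 * M * SS l| ≤ C * (L * M / (Real.log M) ^ A) := by
  obtain ⟨C1, hC1, h1⟩ := h1 (A + 1)
  obtain ⟨C2, hC2, h2⟩ := h2 (A + 1)
  set c : ℝ := 3 * (ε / 8) with hc
  have hc0 : 0 < c := by positivity
  refine ⟨(C1 + 2 * C1 + C2) / c ^ (A + 1), by positivity, fun M L hP h3 => ?_⟩
  have hM := hP.hM
  have hL := hP.hL
  have hM0 : 0 < M := by linarith
  have hlog := hP.hlog
  set W := Wq ε M L with hWd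
  set Y := Yp ε M L with hYd
  set ℓ := Real.log M with hℓ
  have hY3 : 3 ≤ Y := h3.trans hP.hY0
  have hW3 : 3 ≤ W := h3.trans hP.hW0
  have hlY : c * ℓ ≤ Real.log Y := by
    have h4 := Real.log_le_log (Real.rpow_pos_of_pos hM0 _) hP.hY0
    rwa [Real.log_rpow hM0] at h4
  have hcl : 0 < c * ℓ := by positivity
  have h4 : ∀ B : ℝ, 0 ≤ B → B / (Real.log Y) ^ (A + 1) ≤ B / (c ^ (A + 1) * ℓ ^ (A + 1)) := by
    intro B hB
    rw [← mul_pow]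
    exact div_le_div_of_nonneg_left hB (by positivity) (pow_le_pow_left₀ hcl.le hlY _)
  obtain ⟨g1, g2⟩ := h1 L Y hL hY3
  have g3 := h2 L Y W hL hY3 hW3
  have e1 : ∑ l ∈ Icc 1 ⌊L⌋, |Em l M Y W - 2 * M * SS l| ≤
      M * ℓ * ∑ l ∈ Icc 1 ⌊L⌋, |∑ b ∈ bl Y, mu b * (kap l b / nz b)| +
      2 * M * ∑ l ∈ Icc 1 ⌊L⌋, |1 / 4 * ∑ b ∈ bl Y, mu b * (kap l b / nz b) * Real.log (nz b) + SS l| +
      M / 8 * ∑ l ∈ Icc 1 ⌊L⌋, |∑ b ∈ bl Y, ∑ c ∈ bl W, mu b * LamK c * (kap l (b * c) / nz (b * c))| := by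
    rw [mul_sum, mul_sum, mul_sum, ← sum_add_distrib, ← sum_add_distrib]
    refine sum_le_sum fun l _ => ?_
    rw [em_eq]
    refine (abs_sub _ _).trans (add_le_add ((abs_sub _ _).trans (add_le_add ?_ ?_)) ?_)
    · rw [abs_mul, abs_of_nonneg (mul_nonneg hM0.le (by linarith))]
      refine mul_le_mul_of_nonneg_right ?_ (abs_nonneg _)
      nlinarith
    · rw [abs_mul, abs_of_nonneg (by positivity)]
    · rw [abs_mul, abs_of_nonneg (by positivity)]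
  refine e1.trans ?_
  have hLM0 : 0 < L * M := by nlinarith
  have k1 : M * ℓ * ∑ l ∈ Icc 1 ⌊L⌋, |∑ b ∈ bl Y, mu b * (kap l b / nz b)| ≤
      C1 / c ^ (A + 1) * (L * M / ℓ ^ A) := by
    calc _ ≤ M * ℓ * (C1 * L / (c ^ (A + 1) * ℓ ^ (A + 1))) :=
          mul_le_mul_of_nonneg_left (g1.trans (h4 _ (by positivity))) (by positivity)
      _ = C1 / c ^ (A + 1) * (L * M / ℓ ^ A) := by
          rw [pow_succ ℓ A]
          field_simp
  have k2 : 2 * M * ∑ l ∈ Icc 1 ⌊L⌋, |1 / 4 * ∑ b ∈ bl Y, mu b * (kap l b / nz b) * Real.log (nz b) + SS l| ≤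
      2 * C1 / c ^ (A + 1) * (L * M / ℓ ^ A) := by
    calc _ ≤ 2 * M * (C1 * L / (c ^ (A + 1) * ℓ ^ (A + 1))) :=
          mul_le_mul_of_nonneg_left (g2.trans (h4 _ (by positivity))) (by positivity)
      _ ≤ 2 * M * (C1 * L / (c ^ (A + 1) * ℓ ^ A)) := by
          refine mul_le_mul_of_nonneg_left ?_ (by positivity)
          refine div_le_div_of_nonneg_left (by positivity) (by positivity) ?_
          refine mul_le_mul_of_nonneg_left ?_ (by positivity)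
          exact pow_le_pow_right₀ hlog (by omega)
      _ = 2 * C1 / c ^ (A + 1) * (L * M / ℓ ^ A) := by
          field_simp
  have k3 : M / 8 * ∑ l ∈ Icc 1 ⌊L⌋, |∑ b ∈ bl Y, ∑ c ∈ bl W, mu b * LamK c * (kap l (b * c) / nz (b * c))| ≤
      C2 / c ^ (A + 1) * (L * M / ℓ ^ A) := by
    have hlW := hP.hlogW
    have hlW0 : 0 ≤ Real.log W := Real.log_nonneg hP.hW
    calc _ ≤ M / 8 * (C2 * L * Real.log W / (c ^ (A + 1) * ℓ ^ (A + 1))) :=
          mul_le_mul_of_nonneg_left (g3.trans (h4 _ (by positivity))) (by positivity)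
      _ ≤ M / 8 * (C2 * L * (8 * ℓ) / (c ^ (A + 1) * ℓ ^ (A + 1))) := by
          refine mul_le_mul_of_nonneg_left ?_ (by positivity)
          refine div_le_div_of_nonneg_right ?_ (by positivity)
          refine mul_le_mul_of_nonneg_left ?_ (by positivity)
          linarith
      _ = C2 / c ^ (A + 1) * (L * M / ℓ ^ A) := by
          rw [pow_succ ℓ A]
          field_simp
  calc _ ≤ C1 / c ^ (A + 1) * (L * M / ℓ ^ A) + 2 * C1 / c ^ (A + 1) * (L * M / ℓ ^ A) +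
        C2 / c ^ (A + 1) * (L * M / ℓ ^ A) := by linarith
    _ = _ := by ring

/-- the sum over `l` for `Λ` of `ℤ[i]` -/
theorem sumK (hm : S_MUB) (hd : S_DVB) (hv : S_VAU) (hii : S_GII) (hti : S_TI) (htil : S_TIL) (ε : ℝ) (A : ℕ)
    (hε : 0 < ε) : ∃ C : ℝ, 0 < C ∧ ∀ (M L : ℝ), Pq ε M L →
      |∑ l ∈ Icc 1 ⌊L⌋, (∑ m ∈ Icc ⌈-M⌉ ⌊M⌋, LamK (⟨l, m⟩ : ZI) - Em l M (Yp ε M L) (Wq ε M L))| ≤
        C * (L * M / (Real.log M) ^ A) := by
  obtain ⟨C, hC, h⟩ := err_all hm hd hii hti htil ε A hε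
  refine ⟨C, hC, fun M L hP => ?_⟩
  have h1 := vaughan_l hv hP.hM (l1_Lm L) hP.hLM hP.hY hP.hW
  have h2 := h M L hP
  rw [← h1] at h2
  refine le_trans (le_of_eq ?_) h2
  congr 1
  refine sum_congr rfl fun l hl => ?_
  rw [mem_box] at hl
  unfold l1
  rw [if_pos hl, one_mul]

/-- the theorem for large `M` -/
theorem main_large (hm : S_MUB) (hd : S_DVB) (hv : S_VAU) (hii : S_GII) (hti : S_TI) (htil : S_TIL) (hm1 : S_MT1)
    (hm2 : S_MT2) (hlk : S_LK) (ε : ℝ) (A : ℕ) (hε : 0 < ε) :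
    ∃ C : ℝ, 0 < C ∧ ∀ (M L : ℝ), Pq ε M L → 3 ≤ M ^ (3 * (ε / 8)) →
      |∑ l ∈ Icc 1 ⌊L⌋, (∑ m ∈ Icc 1 ⌊M⌋, ArithmeticFunction.vonMangoldt (l ^ 2 + m ^ 2).natAbs - M * SS l)| ≤
        C * (L * M / (Real.log M) ^ A) := by
  obtain ⟨C1, hC1, h1⟩ := sumK hm hd hv hii hti htil ε A hε
  obtain ⟨C2, hC2, h2⟩ := em_bd hm1 hm2 ε A hε
  obtain ⟨C3, hC3, h3⟩ := hlk
  obtain ⟨C4, hC4, h4⟩ := pow_log (1 / 2) (A + 3) (by norm_num)
  obtain ⟨C5, hC5, h5⟩ := pow_log 1 (A + 1) (by norm_num)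
  refine ⟨(C1 + C2 + C3 * C4 + 2 * C5) / 2, by positivity, fun M L hP hM8 => ?_⟩
  have hM := hP.hM
  have hL := hP.hL
  have hM0 : 0 < M := by linarith
  have hlog := hP.hlog
  set ℓ := Real.log M with hℓ
  have g1 := h1 M L hP
  have g2 := h2 M L hP hM8
  have g3 := h3 M L (by linarith [hP.M3]) hL hP.hLM
  have k3 : C3 * M * ℓ ^ 3 ≤ C3 * C4 * (L * M / ℓ ^ A) := by
    have h6 := h4 M hM
    have h7 : M ^ (1 / 2 : ℝ) ≤ L := (Real.rpow_le_rpow_of_exponent_le hM (by linarith [hP.e0])).trans hP.L1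
    rw [mul_div_assoc', le_div_iff₀ (by positivity)]
    calc C3 * M * ℓ ^ 3 * ℓ ^ A = C3 * M * ℓ ^ (A + 3) := by ring
      _ ≤ C3 * M * (C4 * L) := by
        refine mul_le_mul_of_nonneg_left (h6.trans ?_) (by positivity)
        exact mul_le_mul_of_nonneg_left h7 hC4.le
      _ = _ := by ring
  have k4 : L * (2 * ℓ) ≤ 2 * C5 * (L * M / ℓ ^ A) := by
    have h6 := h5 M hM
    rw [Real.rpow_one] at h6
    rw [mul_div_assoc', le_div_iff₀ (by positivity)]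
    calc L * (2 * ℓ) * ℓ ^ A = 2 * L * ℓ ^ (A + 1) := by ring
      _ ≤ 2 * L * (C5 * M) := mul_le_mul_of_nonneg_left h6 (by positivity)
      _ = _ := by ring
  -- the identity
  have id1 : 2 * ∑ l ∈ Icc 1 ⌊L⌋, (∑ m ∈ Icc 1 ⌊M⌋, ArithmeticFunction.vonMangoldt (l ^ 2 + m ^ 2).natAbs - M * SS l) =
      ∑ l ∈ Icc 1 ⌊L⌋, (∑ m ∈ Icc ⌈-M⌉ ⌊M⌋, LamK (⟨l, m⟩ : ZI) - Em l M (Yp ε M L) (Wq ε M L)) +
      ∑ l ∈ Icc 1 ⌊L⌋, (Em l M (Yp ε M L) (Wq ε M L) - 2 * M * SS l) -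
      ∑ l ∈ Icc 1 ⌊L⌋, ∑ m ∈ Icc ⌈-M⌉ ⌊M⌋,
        (LamK (⟨l, m⟩ : ZI) - ArithmeticFunction.vonMangoldt (l ^ 2 + m ^ 2).natAbs) -
      ∑ l ∈ Icc 1 ⌊L⌋, ArithmeticFunction.vonMangoldt (l ^ 2 + 0 ^ 2).natAbs := by
    rw [mul_sum, ← sum_add_distrib, ← sum_sub_distrib, ← sum_sub_distrib]
    refine sum_congr rfl fun l _ => ?_
    have e1 := two_sided hM (fun m => ArithmeticFunction.vonMangoldt (l ^ 2 + m ^ 2).natAbs) (fun m => by
      simp only [neg_sq])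
    rw [sum_sub_distrib, e1]
    ring
  have b2 : |∑ l ∈ Icc 1 ⌊L⌋, (Em l M (Yp ε M L) (Wq ε M L) - 2 * M * SS l)| ≤ C2 * (L * M / ℓ ^ A) :=
    (abs_sum_le_sum_abs _ _).trans g2
  have b3 : |∑ l ∈ Icc 1 ⌊L⌋, ∑ m ∈ Icc ⌈-M⌉ ⌊M⌋,
        (LamK (⟨l, m⟩ : ZI) - ArithmeticFunction.vonMangoldt (l ^ 2 + m ^ 2).natAbs)| ≤
        C3 * M * ℓ ^ 3 := by
    refine (abs_sum_le_sum_abs _ _).trans (le_trans (sum_le_sum fun l _ => abs_sum_le_sum_abs _ _) ?_)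
    exact g3
  have k7 : ((Icc 1 ⌊L⌋).card : ℝ) ≤ L := by
    rw [Int.card_Icc, show ⌊L⌋ + 1 - 1 = ⌊L⌋ by ring]
    have h5 : ((⌊L⌋.toNat : ℕ) : ℤ) = ⌊L⌋ := Int.toNat_of_nonneg (Int.floor_nonneg.2 (by linarith))
    have h6 : ((⌊L⌋.toNat : ℕ) : ℝ) = (⌊L⌋ : ℝ) := by exact_mod_cast h5
    rw [h6]
    exact Int.floor_le L
  have b4 : |∑ l ∈ Icc 1 ⌊L⌋, ArithmeticFunction.vonMangoldt (l ^ 2 + 0 ^ 2).natAbs| ≤ L * (2 * ℓ) := by
    refine (abs_sum_le_sum_abs _ _).trans ?_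
    have e3 : Real.log L ≤ ℓ := Real.log_le_log (by linarith) hP.hLM
    refine (sum_le_sum (g := fun _ => 2 * ℓ) fun l hl => (vM_sq hl).trans (by linarith)).trans ?_
    rw [sum_const, nsmul_eq_mul]
    exact mul_le_mul_of_nonneg_right k7 (by linarith)
  have k9 : 2 * |∑ l ∈ Icc 1 ⌊L⌋, (∑ m ∈ Icc 1 ⌊M⌋, ArithmeticFunction.vonMangoldt (l ^ 2 + m ^ 2).natAbs - M * SS l)| ≤
      (C1 + C2 + C3 * C4 + 2 * C5) * (L * M / ℓ ^ A) := by
    rw [show 2 * |∑ l ∈ Icc 1 ⌊L⌋, (∑ m ∈ Icc 1 ⌊M⌋, ArithmeticFunction.vonMangoldt (l ^ 2 + m ^ 2).natAbs - M * SS l)| =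
      |2 * ∑ l ∈ Icc 1 ⌊L⌋, (∑ m ∈ Icc 1 ⌊M⌋, ArithmeticFunction.vonMangoldt (l ^ 2 + m ^ 2).natAbs - M * SS l)| by
        rw [abs_mul, abs_of_pos (by norm_num : (0 : ℝ) < 2)], id1]
    refine (abs_sub _ _).trans ?_
    refine (add_le_add ((abs_sub _ _).trans (add_le_add (abs_add_le _ _) le_rfl)) le_rfl).trans ?_
    calc _ ≤ C1 * (L * M / ℓ ^ A) + C2 * (L * M / ℓ ^ A) + C3 * C4 * (L * M / ℓ ^ A) + 2 * C5 * (L * M / ℓ ^ A) :=
          add_le_add (add_le_add (add_le_add g1 b2) (b3.trans k3)) (b4.trans k4)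
      _ = _ := by ring
  linarith

/-- **GFM** from the statements of the library and GII -/
theorem gfm_of (hm : S_MUB) (hd : S_DVB) (hv : S_VAU) (hii : S_GII) (hti : S_TI) (htil : S_TIL) (hm1 : S_MT1)
    (hm2 : S_MT2) (hlk : S_LK) : S_GFM := by
  intro ε A hε
  obtain ⟨C1, hC1, h1⟩ := main_large hm hd hv hii hti htil hm1 hm2 hlk ε A hε
  set M0 : ℝ := max 3 ((3 : ℝ) ^ (1 / (3 * (ε / 8)))) with hM0
  have hM03 : 3 ≤ M0 := le_max_left _ _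
  set K : ℝ := ∑ l ∈ Icc 1 ⌊M0⌋, (∑ m ∈ Icc 1 ⌊M0⌋, ArithmeticFunction.vonMangoldt (l ^ 2 + m ^ 2).natAbs +
    M0 * |SS l|) with hK
  have hK0 : 0 ≤ K := sum_nonneg fun l _ => add_nonneg
    (sum_nonneg fun m _ => ArithmeticFunction.vonMangoldt_nonneg) (by positivity)
  have hlM0 : 0 ≤ Real.log M0 := Real.log_nonneg (by linarith)
  refine ⟨C1 + K * (Real.log M0) ^ A, by positivity, fun M L hM3 hL1 hL2 => ?_⟩
  have hM1 : 1 < M := by linarith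
  have hε4 : ε ≤ 1 / 4 := by
    have h2 : M ^ (1 / 2 + ε) ≤ M ^ (1 - ε) := hL1.trans hL2
    have h3 := (Real.rpow_le_rpow_left_iff hM1).1 h2
    linarith
  have hP : Pq ε M L := ⟨hε, hε4, hM3, hL1, hL2⟩
  have hL := hP.hL
  have hlog := hP.hlog
  have hX : 0 ≤ L * M / (Real.log M) ^ A := by positivity
  rw [show (C1 + K * (Real.log M0) ^ A) * L * M / (Real.log M) ^ A =
    (C1 + K * (Real.log M0) ^ A) * (L * M / (Real.log M) ^ A) by ring]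
  by_cases hc : 3 ≤ M ^ (3 * (ε / 8))
  · refine (h1 M L hP hc).trans ?_
    refine mul_le_mul_of_nonneg_right ?_ hX
    have : 0 ≤ K * (Real.log M0) ^ A := by positivity
    linarith
  · push Not at hc
    have hMM0 : M ≤ M0 := by
      refine le_trans ?_ (le_max_right _ _)
      have h2 : (M ^ (3 * (ε / 8))) ^ (1 / (3 * (ε / 8))) ≤ (3 : ℝ) ^ (1 / (3 * (ε / 8))) :=
        Real.rpow_le_rpow (by positivity) hc.le (by positivity)
      rw [← Real.rpow_mul (by linarith), mul_one_div_cancel (by positivity), Real.rpow_one] at h2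
      exact h2
    have h2 : |∑ l ∈ Icc 1 ⌊L⌋, (∑ m ∈ Icc 1 ⌊M⌋, ArithmeticFunction.vonMangoldt (l ^ 2 + m ^ 2).natAbs - M * SS l)| ≤ K := by
      refine (abs_sum_le_sum_abs _ _).trans ?_
      rw [hK]
      have hLM0 : L ≤ M0 := hP.hLM.trans hMM0
      calc _ ≤ ∑ l ∈ Icc 1 ⌊L⌋, (∑ m ∈ Icc 1 ⌊M0⌋, ArithmeticFunction.vonMangoldt (l ^ 2 + m ^ 2).natAbs +
            M0 * |SS l|) := by
            refine sum_le_sum fun l _ => (abs_sub _ _).trans (add_le_add ?_ ?_)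
            · rw [abs_of_nonneg (sum_nonneg fun m _ => ArithmeticFunction.vonMangoldt_nonneg)]
              refine sum_le_sum_of_subset_of_nonneg ?_ fun m _ _ => ArithmeticFunction.vonMangoldt_nonneg
              exact Icc_subset_Icc le_rfl (Int.floor_le_floor hMM0)
            · rw [abs_mul, abs_of_nonneg (by linarith)]
              exact mul_le_mul_of_nonneg_right hMM0 (abs_nonneg _)
        _ ≤ _ := by
            refine sum_le_sum_of_subset_of_nonneg ?_ fun l _ _ => add_nonneg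
              (sum_nonneg fun m _ => ArithmeticFunction.vonMangoldt_nonneg) (by positivity)
            exact Icc_subset_Icc le_rfl (Int.floor_le_floor hLM0)
    refine h2.trans ?_
    have h3 : (Real.log M) ^ A ≤ (Real.log M0) ^ A :=
      pow_le_pow_left₀ (by linarith) (Real.log_le_log (by linarith) hMM0) A
    have h4 : 1 ≤ L * M := by nlinarith
    have h5 : K ≤ K * (Real.log M0) ^ A * (L * M / (Real.log M) ^ A) := by
      rw [mul_assoc]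
      refine le_mul_of_one_le_right hK0 ?_
      rw [mul_div_assoc', le_div_iff₀ (by positivity), one_mul]
      have : 0 ≤ (Real.log M0) ^ A := by positivity
      nlinarith
    have h6 : 0 ≤ C1 * (L * M / (Real.log M) ^ A) := by positivity
    calc K ≤ K * (Real.log M0) ^ A * (L * M / (Real.log M) ^ A) := h5
      _ ≤ _ := by
        rw [add_mul]
        linarith

end Run7.h349.GP
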